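import Pool.Agent.Helper19_Horton.Exist
import Pool.Agent.Helper19_Horton.NonExist

/-!
MP_b14753_co, Q1: the odd sides without a patterned Room square are exactly 3, 5 and 9.
-/

namespace Pool.Agent.Results.MP_b14753_co.PatternedRoomSquares

open Pool.Agent.Helper19_Horton

theorem starter_one : HasStrongStarter 1 := by
  refine ⟨fun x => x, rfl, fun _ => rfl, fun x hx => absurd (Subsingleton.elim x 0) hx, ?_, ?_⟩
  · intro a b _
    exact Subsingleton.elim a b
  · intro x z _
    exact Or.inl (Subsingleton.elim z x)

/-- The odd positive integers `n` for which no patterned Room square of side `n` exists are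
exactly `3`, `5` and `9`. -/
theorem result : {n : ℕ | Odd n ∧ ¬ ∃ R : Arr n, IsPatterned n R} = {3, 5, 9} := by
  ext n
  simp only [Set.mem_setOf_eq, Set.mem_insert_iff, Set.mem_singleton_iff]
  constructor
  · rintro ⟨hodd, hno⟩
    by_contra hne
    push Not at hne
    obtain ⟨h3, h5, h9⟩ := hne
    apply hno
    apply patterned_of_strongStarter hodd
    have hodd' : n % 2 = 1 := Nat.odd_iff.mp hodd
    rcases Nat.lt_or_ge n 7 with h | h
    · have : n = 1 := by omega
      rw [this]
      exact starter_one
    · exact strongStarter_of_odd hodd' h h9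
  · rintro (rfl | rfl | rfl)
    · exact ⟨by decide, not_three⟩
    · exact ⟨by decide, not_five⟩
    · exact ⟨by decide, not_nine⟩

end Pool.Agent.Results.MP_b14753_co.PatternedRoomSquares
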